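import Mathlib

/-!
# Units in words and heirs of words (for `MP_c026f4_lc`, Billaud's conjecture)
-/

set_option linter.unusedSectionVars false

namespace Billaud337

variable {A : Type*} [DecidableEq A]

/-- `w` is a fixed point of a morphism which moves a letter of `w`. -/
def Imprim (w : List A) : Prop := ∃ σ : A → List A, w.flatMap σ = w ∧ ∃ x ∈ w, σ x ≠ [x]

/-- erasing a letter -/
def del (x : A) (w : List A) : List A := w.filter (fun y => decide (y ≠ x))

/-- `y z` is a unit of `v`: every `y` is followed by `z` and every `z` is preceded by `y` -/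
structure IsUnit' (v : List A) (y z : A) : Prop where
  ne : y ≠ z
  mem : y ∈ v
  right : ∀ p q, v = p ++ y :: q → ∃ q', q = z :: q'
  left : ∀ p q, v = p ++ z :: q → ∃ p', p = p' ++ [y]

theorem IsUnit'.memz {v : List A} {y z : A} (h : IsUnit' v y z) : z ∈ v := by
  obtain ⟨p, q, hv⟩ := List.append_of_mem h.mem
  obtain ⟨q', rfl⟩ := h.right p q hv
  rw [hv]; simp

theorem flatMap_unit {y z : A} (hne : y ≠ z) : ∀ (n : ℕ) (v : List A), v.length ≤ n →
    (∀ p q, v = p ++ y :: q → ∃ q', q = z :: q') →
    (∀ p q, v = p ++ z :: q → ∃ p', p = p' ++ [y]) →
    v.flatMap (fun c => if c = y then [y, z] else if c = z then [] else [c]) = v := by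
  intro n
  induction n with
  | zero =>
    intro v hv _ _
    have : v = [] := List.length_eq_zero_iff.1 (by omega)
    subst this; rfl
  | succ n ih =>
    intro v hv hr hl
    cases v with
    | nil => rfl
    | cons c v =>
      by_cases hcy : c = y
      · subst hcy
        obtain ⟨v', rfl⟩ := hr [] v rfl
        have hvv : v'.length ≤ n := by simp only [List.length_cons] at hv; omega
        have := ih v' hvv ?_ ?_
        · simp only [List.flatMap_cons, if_true, if_neg (Ne.symm hne)]
          rw [this]; simp
        · intro p q h
          exact hr (c :: z :: p) q (by rw [h]; simp)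
        · intro p q h
          obtain ⟨p', hp'⟩ := hl (c :: z :: p) q (by rw [h]; simp)
          rcases List.eq_nil_or_concat p with rfl | ⟨p0, a, rfl⟩
          · exfalso
            have h1 : [c] ++ [z] = p' ++ [c] := by simpa using hp'
            have := (List.append_inj' h1 rfl).2
            simp at this
            exact hne this.symm
          · refine ⟨p0, ?_⟩
            have h1 : (c :: z :: p0) ++ [a] = p' ++ [c] := by simpa using hp'
            have := (List.append_inj' h1 rfl).2
            simp at this
            simp [this]
      · by_cases hcz : c = z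
        · exfalso
          subst hcz
          obtain ⟨p', hp'⟩ := hl [] v rfl
          simp at hp'
        · have hvv : v.length ≤ n := by simp only [List.length_cons] at hv; omega
          have := ih v hvv ?_ ?_
          · simp only [List.flatMap_cons, if_neg hcy, if_neg hcz]
            rw [this]; simp
          · intro p q h
            exact hr (c :: p) q (by rw [h]; simp)
          · intro p q h
            obtain ⟨p', hp'⟩ := hl (c :: p) q (by rw [h]; simp)
            rcases List.eq_nil_or_concat p with rfl | ⟨p0, a, rfl⟩
            · exfalso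
              have h1 : [] ++ [c] = p' ++ [y] := by simpa using hp'
              have := (List.append_inj' h1 rfl).2
              simp at this
              exact hcy this
            · refine ⟨p0, ?_⟩
              have h1 : (c :: p0) ++ [a] = p' ++ [y] := by simpa using hp'
              have := (List.append_inj' h1 rfl).2
              simp at this
              simp [this]

/-- a word with a unit is a fixed point of a nontrivial morphism -/
theorem IsUnit'.imprim {v : List A} {y z : A} (h : IsUnit' v y z) : Imprim v := by
  refine ⟨fun c => if c = y then [y, z] else if c = z then [] else [c],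
    flatMap_unit h.ne v.length v le_rfl h.right h.left, y, h.mem, ?_⟩
  simp

/-! ## From fixed points to units -/

theorem flatMap_split (σ : A → List A) : ∀ (w p q : List A) (y : A),
    w.flatMap σ = p ++ y :: q →
    ∃ w1 a w2 s1 s2, w = w1 ++ a :: w2 ∧ σ a = s1 ++ y :: s2 ∧
      p = w1.flatMap σ ++ s1 ∧ q = s2 ++ w2.flatMap σ := by
  intro w
  induction w with
  | nil => intro p q y h; simp at h
  | cons a w ih =>
    intro p q y h
    rw [List.flatMap_cons] at h
    rcases List.append_eq_append_iff.1 h with ⟨t, h1, h2⟩ | ⟨t, h1, h2⟩
    · -- p = σ a ++ t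
      obtain ⟨w1, b, w2, s1, s2, rfl, hb, rfl, rfl⟩ := ih t q y h2
      exact ⟨a :: w1, b, w2, s1, s2, rfl, hb, by rw [h1]; simp, rfl⟩
    · -- σ a = p ++ t, y :: q = t ++ flatMap w
      cases t with
      | nil =>
        simp only [List.nil_append] at h2
        obtain ⟨w1, b, w2, s1, s2, rfl, hb, hp, rfl⟩ := ih [] q y (by simpa using h2.symm)
        refine ⟨a :: w1, b, w2, s1, s2, rfl, hb, ?_, rfl⟩
        rw [List.flatMap_cons, List.append_assoc, ← hp, h1]; simp
      | cons c t =>
        simp only [List.cons_append, List.cons.injEq] at h2
        obtain ⟨rfl, rfl⟩ := h2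
        exact ⟨[], a, w, p, t, rfl, h1, by simp, rfl⟩

theorem flatMap_trivial (σ : A → List A) : ∀ v : List A, (∀ a ∈ v, (σ a).length ≤ 1) →
    (v.flatMap σ).length ≤ v.length := by
  intro v
  induction v with
  | nil => intro _; simp
  | cons a v ih =>
    intro h
    have h1 := ih (fun b hb => h b (by simp [hb]))
    have h2 := h a (by simp)
    simp only [List.flatMap_cons, List.length_append, List.length_cons]
    omega

theorem flatMap_id (σ : A → List A) : ∀ v : List A, (∀ a ∈ v, (σ a).length ≤ 1) →
    v.flatMap σ = v → ∀ a ∈ v, σ a = [a] := by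
  intro v
  induction v with
  | nil => intro _ _ a ha; simp at ha
  | cons a v ih =>
    intro h hv b hb
    have h1 := flatMap_trivial σ v (fun c hc => h c (by simp [hc]))
    have h2 := h a (by simp)
    have hlen := congrArg List.length hv
    rw [List.flatMap_cons] at hv
    simp only [List.flatMap_cons, List.length_append, List.length_cons] at hlen
    obtain ⟨c, hc⟩ := List.length_eq_one_iff.1 (by omega : (σ a).length = 1)
    rw [hc] at hv
    simp only [List.singleton_append, List.cons.injEq] at hv
    obtain ⟨rfl, hv⟩ := hv
    rcases List.mem_cons.1 hb with rfl | hb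
    · exact hc
    · exact ih (fun c hc => h c (by simp [hc])) hv b hb

/-- a fixed point of a nontrivial morphism in which no letter frequency is a sum of two or more
letter frequencies has a unit -/
theorem exists_unit {v : List A} (hc : ∀ b ∈ v, ∀ s : List A, (∀ a ∈ s, a ∈ v) →
    (s.map v.count).sum = v.count b → s.length ≤ 1)
    (h : Imprim v) : ∃ y z, IsUnit' v y z := by
  obtain ⟨σ, hσ, x, hx, hxσ⟩ := h
  have hcount : ∀ b, v.count b = ∑ a ∈ v.toFinset, v.count a * (σ a).count b := by
    intro b
    conv_lhs => rw [← hσ]
    rw [List.count_flatMap, Finset.sum_list_map_count]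
    simp [smul_eq_mul]
  have hone : ∀ b ∈ v, ∑ a ∈ v.toFinset, (σ a).count b = 1 := by
    intro b hb
    have hpos : 0 < v.count b := List.count_pos_iff.2 hb
    have h2 : ∑ a ∈ v.toFinset, (σ a).count b ≤ 1 := by
      have key := hc b hb (v.toFinset.toList.flatMap fun a => List.replicate ((σ a).count b) a)
        ?_ ?_
      · rw [List.length_flatMap] at key
        simpa using key
      · intro a ha
        obtain ⟨c, hc1, hc2⟩ := List.mem_flatMap.1 ha
        rw [List.eq_of_mem_replicate hc2]
        simpa using hc1
      · rw [List.map_flatMap, List.flatMap, List.sum_flatten, List.map_map, hcount b]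
        rw [Finset.sum_map_toList]
        refine Finset.sum_congr rfl (fun a _ => ?_)
        simp [Nat.mul_comm]
    have h3 : ∑ a ∈ v.toFinset, (σ a).count b ≠ 0 := by
      intro h0
      rw [Finset.sum_eq_zero_iff] at h0
      have := hcount b
      rw [Finset.sum_eq_zero (fun a ha => by rw [h0 a ha]; simp)] at this
      omega
    omega
  have huniq : ∀ b ∈ v, ∀ a ∈ v, ∀ a' ∈ v, b ∈ σ a → b ∈ σ a' → a = a' := by
    intro b hb a ha a' ha' h1 h2
    by_contra hne
    have hs := hone b hb
    have h3 : (σ a).count b + (σ a').count b ≤ ∑ a ∈ v.toFinset, (σ a).count b := by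
      have := Finset.sum_le_sum_of_subset (f := fun a => (σ a).count b)
        (show ({a, a'} : Finset A) ⊆ v.toFinset by
          intro c hcc
          simp only [Finset.mem_insert, Finset.mem_singleton] at hcc
          rcases hcc with rfl | rfl
          · exact List.mem_toFinset.2 ha
          · exact List.mem_toFinset.2 ha')
      rwa [Finset.sum_pair hne] at this
    have h4 : 0 < (σ a).count b := List.count_pos_iff.2 h1
    have h5 : 0 < (σ a').count b := List.count_pos_iff.2 h2
    omega
  have hle : ∀ b ∈ v, ∀ a ∈ v, (σ a).count b ≤ 1 := by
    intro b hb a ha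
    rw [← hone b hb]
    exact Finset.single_le_sum (f := fun a => (σ a).count b) (fun _ _ => Nat.zero_le _)
      (List.mem_toFinset.2 ha)
  have hsub : ∀ a ∈ v, ∀ b ∈ σ a, b ∈ v := by
    intro a ha b hb
    rw [← hσ]
    exact List.mem_flatMap.2 ⟨a, ha, hb⟩
  -- a letter with a long image
  have hlong : ∃ a ∈ v, 2 ≤ (σ a).length := by
    by_contra hcon
    push Not at hcon
    exact hxσ (flatMap_id σ v (fun a ha => by have := hcon a ha; omega) hσ x hx)
  obtain ⟨a, ha, hlen⟩ := hlong
  match hσa : σ a, hlen with
  | y :: z :: r, _ =>
    have hyv : y ∈ v := hsub a ha y (by rw [hσa]; simp)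
    have hzv : z ∈ v := hsub a ha z (by rw [hσa]; simp)
    have hy1 := hle y hyv a ha
    have hz1 := hle z hzv a ha
    rw [hσa] at hy1 hz1
    have hne : y ≠ z := by
      rintro rfl
      simp at hy1
    refine ⟨y, z, hne, hyv, ?_, ?_⟩
    · intro p q hv
      have hv' : v.flatMap σ = p ++ y :: q := by rw [hσ]; exact hv
      obtain ⟨w1, a', w2, s1, s2, hw, hs, -, hq⟩ := flatMap_split σ v p q y hv'
      have ha' : a' ∈ v := by rw [hw]; simp
      have haa : a = a' := huniq y hyv a ha a' ha' (by rw [hσa]; simp) (by rw [hs]; simp)
      subst haa
      rw [hσa] at hs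
      cases s1 with
      | nil =>
        simp only [List.nil_append, List.cons.injEq, true_and] at hs
        rw [hq, ← hs]
        exact ⟨r ++ w2.flatMap σ, rfl⟩
      | cons c s1 =>
        exfalso
        simp only [List.cons_append, List.cons.injEq] at hs
        rw [List.count_cons_self, hs.2] at hy1
        simp at hy1
    · intro p q hv
      have hv' : v.flatMap σ = p ++ z :: q := by rw [hσ]; exact hv
      obtain ⟨w1, a', w2, s1, s2, hw, hs, hp, -⟩ := flatMap_split σ v p q z hv'
      have ha' : a' ∈ v := by rw [hw]; simp
      have haa : a = a' := huniq z hzv a ha a' ha' (by rw [hσa]; simp) (by rw [hs]; simp)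
      subst haa
      rw [hσa] at hs
      cases s1 with
      | nil =>
        simp only [List.nil_append, List.cons.injEq] at hs
        exact absurd hs.1 hne
      | cons c s1 =>
        simp only [List.cons_append, List.cons.injEq] at hs
        obtain ⟨rfl, hs⟩ := hs
        cases s1 with
        | nil => exact ⟨w1.flatMap σ, hp⟩
        | cons d s1 =>
          exfalso
          simp only [List.cons_append, List.cons.injEq] at hs
          obtain ⟨rfl, hs⟩ := hs
          rw [List.count_cons, List.count_cons_self, hs] at hz1
          simp only [List.count_append, List.count_cons_self] at hz1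
          omega
  | [], h => simp at h
  | [_], h => simp at h

end Billaud337
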