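import Mathlib
import Pool.Agent.Helper337.Billaud.Units

/-!
# If every heir of a word has a unit, then the word has a unit
-/

set_option linter.unusedSectionVars false

namespace Billaud337

variable {A : Type*} [DecidableEq A]

theorem del_append (x : A) (p q : List A) : del x (p ++ q) = del x p ++ del x q := by
  simp [del]

theorem del_cons_ne {x y : A} (h : y ≠ x) (q : List A) : del x (y :: q) = y :: del x q := by
  simp [del, h]

theorem del_cons_self (x : A) (q : List A) : del x (x :: q) = del x q := by
  simp [del]

theorem mem_del {x y : A} {w : List A} : y ∈ del x w ↔ y ∈ w ∧ y ≠ x := by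
  simp [del]

theorem del_eq_cons {x z : A} : ∀ {q r : List A}, del x q = z :: r →
    ∃ j q', q = List.replicate j x ++ z :: q' := by
  intro q
  induction q with
  | nil => intro r h; simp [del] at h
  | cons c q ih =>
    intro r h
    by_cases hc : c = x
    · subst hc
      rw [del_cons_self] at h
      obtain ⟨j, q', rfl⟩ := ih h
      exact ⟨j + 1, q', by simp [List.replicate_succ]⟩
    · rw [del_cons_ne hc] at h
      simp only [List.cons.injEq] at h
      exact ⟨0, q, by simp [h.1]⟩

theorem del_eq_concat {x z : A} {p r : List A} (h : del x p = r ++ [z]) :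
    ∃ j p', p = p' ++ z :: List.replicate j x := by
  have h1 : del x p.reverse = z :: r.reverse := by
    have : del x p.reverse = (del x p).reverse := by simp [del, List.filter_reverse]
    rw [this, h]; simp
  obtain ⟨j, q', hq⟩ := del_eq_cons h1
  refine ⟨j, q'.reverse, ?_⟩
  have := congrArg List.reverse hq
  simpa using this

/-- `y z` is a unit of the heir of `w` at `x` -/
structure HUnit (w : List A) (x y z : A) : Prop where
  ne : y ≠ z
  yx : y ≠ x
  zx : z ≠ x
  mem : y ∈ w
  right : ∀ p q, w = p ++ y :: q → ∃ j q', q = List.replicate j x ++ z :: q'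
  left : ∀ p q, w = p ++ z :: q → ∃ j p', p = p' ++ y :: List.replicate j x

theorem IsUnit'.hunit {w : List A} {x y z : A} (h : IsUnit' (del x w) y z) : HUnit w x y z := by
  have hy := mem_del.1 h.mem
  have hz := mem_del.1 h.memz
  refine ⟨h.ne, hy.2, hz.2, hy.1, ?_, ?_⟩
  · intro p q hw
    obtain ⟨q', hq'⟩ := h.right (del x p) (del x q) (by rw [hw, del_append, del_cons_ne hy.2])
    exact del_eq_cons hq'
  · intro p q hw
    obtain ⟨p', hp'⟩ := h.left (del x p) (del x q) (by rw [hw, del_append, del_cons_ne hz.2])
    exact del_eq_concat hp'

/-- `b` directly follows `a` in `w` -/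
def Adj (w : List A) (a b : A) : Prop := ∃ p q, w = p ++ a :: b :: q

theorem HUnit.succ {w : List A} {x y z : A} (h : HUnit w x y z) {b : A} (hb : Adj w y b) :
    b = x ∨ b = z := by
  obtain ⟨p, q, hw⟩ := hb
  obtain ⟨j, q', hq⟩ := h.right p (b :: q) hw
  cases j with
  | zero => simp only [List.replicate_zero, List.nil_append, List.cons.injEq] at hq; exact Or.inr hq.1
  | succ j => simp only [List.replicate_succ, List.cons_append, List.cons.injEq] at hq; exact Or.inl hq.1

theorem concat_cons_replicate {p' : List A} {y x a : A} {j : ℕ} {p : List A}
    (h : p ++ [a] = p' ++ y :: List.replicate j x) : (j = 0 ∧ a = y ∧ p = p') ∨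
      (∃ i, j = i + 1 ∧ a = x ∧ p = p' ++ y :: List.replicate i x) := by
  cases j with
  | zero =>
    left
    have := List.append_inj' (s₁ := p) (s₂ := p') (t₁ := [a]) (t₂ := [y]) (by simpa using h) rfl
    exact ⟨rfl, by simpa using this.2, this.1⟩
  | succ j =>
    right
    refine ⟨j, rfl, ?_⟩
    have h1 : p ++ [a] = (p' ++ y :: List.replicate j x) ++ [x] := by
      rw [h, List.replicate_succ']; simp
    have := List.append_inj' h1 rfl
    exact ⟨by simpa using this.2, this.1⟩

theorem HUnit.pred {w : List A} {x y z : A} (h : HUnit w x y z) {b : A} (hb : Adj w b z) :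
    b = x ∨ b = y := by
  obtain ⟨p, q, hw⟩ := hb
  obtain ⟨j, p', hp⟩ := h.left (p ++ [b]) q (by rw [hw]; simp)
  rcases concat_cons_replicate hp with ⟨_, h1, _⟩ | ⟨i, _, h1, _⟩
  · exact Or.inr h1
  · exact Or.inl h1

/-- if `w` has no unit then `x` occurs directly behind `y` (and in front of `z`) -/
theorem HUnit.adj {w : List A} {x y z : A} (h : HUnit w x y z)
    (hno : ∀ a b, ¬ IsUnit' w a b) : Adj w y x := by
  by_contra hcon
  refine hno y z ⟨h.ne, h.mem, ?_, ?_⟩
  · intro p q hw
    obtain ⟨j, q', hq⟩ := h.right p q hw
    cases j with
    | zero => exact ⟨q', by simpa using hq⟩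
    | succ j =>
      exfalso
      rw [List.replicate_succ, List.cons_append] at hq
      exact hcon ⟨p, _, by rw [hw, hq]⟩
  · intro p q hw
    obtain ⟨j, p', hp⟩ := h.left p q hw
    cases j with
    | zero => exact ⟨p', hp⟩
    | succ j =>
      exfalso
      refine hcon ⟨p', List.replicate j x ++ z :: q, ?_⟩
      rw [hw, hp, List.replicate_succ]; simp

theorem HUnit.adj' {w : List A} {x y z : A} (h : HUnit w x y z)
    (hno : ∀ a b, ¬ IsUnit' w a b) : Adj w x z := by
  obtain ⟨p, q, hw⟩ := h.adj hno
  obtain ⟨j, q', hq⟩ := h.right p (x :: q) hw
  cases j with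
  | zero =>
    simp only [List.replicate_zero, List.nil_append, List.cons.injEq] at hq
    exact absurd hq.1 h.zx.symm
  | succ j =>
    refine ⟨p ++ y :: List.replicate j x, q', ?_⟩
    rw [hw, hq, List.replicate_succ']; simp

/-- the key lemma: the left letters of the units are different -/
theorem key {w : List A} {y x x' u : A} (hxx : x ≠ x') (hno : ∀ a b, ¬ IsUnit' w a b)
    (h1 : HUnit w x y x') (h2 : HUnit w x' y x) (h3 : HUnit w y u x) : False := by
  -- `x'` directly in front of `x`
  have hA : Adj w x' x := h2.adj' hno
  have hu : u = x' := by
    rcases h3.pred hA with h | h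
    · exact absurd h h2.yx.symm
    · exact h.symm
  subst hu
  -- infinite descent
  have hdesc : ∀ (n : ℕ) (p q : List A), q.length ≤ n → w = p ++ y :: x :: q → False := by
    intro n
    induction n with
    | zero =>
      intro p q hq hw
      have : q = [] := List.length_eq_zero_iff.1 (by omega)
      subst this
      obtain ⟨j, q', hq'⟩ := h1.right p [x] hw
      cases j with
      | zero =>
        simp only [List.replicate_zero, List.nil_append, List.cons.injEq] at hq'
        exact hxx hq'.1
      | succ j =>
        simp only [List.replicate_succ, List.cons_append, List.cons.injEq, true_and] at hq'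
        have := congrArg List.length hq'
        simp at this
    | succ n ih =>
      intro p q hq hw
      obtain ⟨j, q', hq'⟩ := h1.right p (x :: q) hw
      cases j with
      | zero =>
        simp only [List.replicate_zero, List.nil_append, List.cons.injEq] at hq'
        exact hxx hq'.1
      | succ j =>
        simp only [List.replicate_succ, List.cons_append, List.cons.injEq, true_and] at hq'
        cases j with
        | succ j =>
          -- `x x`
          simp only [List.replicate_succ, List.cons_append] at hq'
          have : Adj w x x := ⟨p ++ [y], List.replicate j x ++ u :: q', by rw [hw, hq']; simp⟩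
          rcases h2.pred this with h | h
          · exact hxx h
          · exact h1.yx h.symm
        | zero =>
          simp only [List.replicate_zero, List.nil_append] at hq'
          subst hq'
          -- `w = p ++ y :: x :: x' :: q'`
          obtain ⟨i, q'', hq''⟩ := h3.right (p ++ [y, x]) q' (by rw [hw]; simp)
          cases i with
          | zero =>
            simp only [List.replicate_zero, List.nil_append] at hq''
            subst hq''
            -- `x x' x`
            obtain ⟨k, p', hp'⟩ := h2.left (p ++ [y, x] ++ [u]) q'' (by rw [hw]; simp)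
            rcases concat_cons_replicate hp' with ⟨_, hh, _⟩ | ⟨k', _, _, hh⟩
            · exact h2.yx hh.symm
            · have hh' : (p ++ [y]) ++ [x] = p' ++ y :: List.replicate k' u := by
                rw [← hh]; simp
              rcases concat_cons_replicate hh' with ⟨_, hh2, _⟩ | ⟨_, _, hh2, _⟩
              · exact h1.yx hh2.symm
              · exact hxx hh2
          | succ i =>
            cases i with
            | zero =>
              refine ih (p ++ [y, x, u]) q'' ?_ ?_
              · simp only [hq'', List.length_cons, List.length_append, List.length_replicate] at hq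
                omega
              · rw [hw, hq'']; simp
            | succ i =>
              have : Adj w y y := by
                refine ⟨p ++ [y, x, u], List.replicate i y ++ x :: q'', ?_⟩
                rw [hw, hq'', List.replicate_succ, List.replicate_succ]; simp
              rcases h1.succ this with h | h
              · exact h1.yx h
              · exact h2.yx h
  obtain ⟨p, q, hw⟩ := h1.adj hno
  exact hdesc q.length p q le_rfl hw

/-- **Unit theorem.** If every heir of a nonempty word has a unit, then the word has a unit. -/
theorem exists_unit_of_heirs {w : List A} (hw : w ≠ [])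
    (h : ∀ x ∈ w, ∃ y z, IsUnit' (del x w) y z) : ∃ y z, IsUnit' w y z := by
  by_contra hcon
  push Not at hcon
  choose! Y Z hYZ using h
  have hU : ∀ x ∈ w, HUnit w x (Y x) (Z x) := fun x hx => (hYZ x hx).hunit
  have hinj : Set.InjOn Y (w.toFinset : Set A) := by
    intro x hx x' hx' hxx
    by_contra hne
    have hxw : x ∈ w := by simpa using hx
    have hxw' : x' ∈ w := by simpa using hx'
    have U1 := hU x hxw
    have U2 := hU x' hxw'
    rw [← hxx] at U2
    have a1 := U1.adj hcon
    have a2 := U2.adj hcon
    have hz1 : Z x = x' := by
      rcases U1.succ a2 with h | h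
      · exact absurd h.symm hne
      · exact h.symm
    have hz2 : Z x' = x := by
      rcases U2.succ a1 with h | h
      · exact absurd h hne
      · exact h.symm
    rw [hz1] at U1
    rw [hz2] at U2
    have U3 := hU (Y x) U1.mem
    rcases U1.succ (U3.adj' hcon) with h | h
    · rw [h] at U3
      exact key hne hcon U1 U2 U3
    · rw [h] at U3
      exact key (Ne.symm hne) hcon U2 U1 U3
  have hmaps : Set.MapsTo Y (w.toFinset : Set A) (w.toFinset : Set A) := by
    intro x hx
    have hxw : x ∈ w := by simpa using hx
    simpa using (hU x hxw).mem
  have hsurj : Set.SurjOn Y (w.toFinset : Set A) (w.toFinset : Set A) :=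
    Finset.surjOn_of_injOn_of_card_le Y hmaps hinj le_rfl
  rcases List.eq_nil_or_concat w with rfl | ⟨p, t, hpt⟩
  · exact hw rfl
  · have ht : t ∈ (w.toFinset : Set A) := by rw [hpt]; simp
    obtain ⟨x, hx, hxt⟩ := hsurj ht
    have hxw : x ∈ w := by simpa using hx
    obtain ⟨j, q', hq'⟩ := (hU x hxw).right p [] (by rw [hxt]; simpa using hpt)
    have := congrArg List.length hq'
    simp at this

end Billaud337
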